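import Pool.Agent.H199BIL.Weak
import Pool.Agent.H199BIL.AE
import Pool.Agent.H199BIL.Compact
import Pool.Agent.H199BIL.Corner
import Pool.Agent.H199BIL.Gap
import Pool.Agent.H199BIL.TaskVertex
import Pool.Agent.H199BIL.Step

set_option autoImplicit false

open Pool.Agent.H199BIL

namespace Pool.Agent.Results.MP_7bc51d_an.ContinuousInvariants

/-- For every `n = m + 3 ≥ 3`: (1) Lebesgue-almost every convex `n`-gon (given by its vertices
`z 0, ..., z (n-1)` in counterclockwise order) has only angles that are irrational multiples of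
`π`; (2) for each convex `n`-gon with this property every continuous function on
`P × S¹` which is constant along the billiard trajectories is constant. -/
theorem result : ∀ m : ℕ,
    (∀ᵐ z : Fin (m + 3) → ℂ, IsConvexPolygon z → IrrationalAngles z) ∧
    (∀ z : Fin (m + 3) → ℂ, IsConvexPolygon z → IrrationalAngles z →
      ∀ f : ℂ × ℂ → ℝ, ContinuousOn f (table z ×ˢ Metric.sphere (0 : ℂ) 1) →
        BilliardInvariantWeak z f →
          ∃ c : ℝ, ∀ x ∈ table z, ∀ w : ℂ, ‖w‖ = 1 → f (x, w) = c) := by
  intro m
  refine ⟨taskAE m, ?_⟩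
  intro z hz hirr f hf hinv
  obtain ⟨hcpt, hv, he⟩ := Compact_ok m z hz
  have hinv' := weak_to_strong hz hv he hf hinv
  have hcor := task_corner m z hz
  obtain ⟨c, hc⟩ := taskVertex_ok m z hv he hirr f hf hinv'
  refine ⟨c, ?_⟩
  intro x hx w hw
  have h := value_eq taskGap step_ok hcpt hv he hcor hf hinv' hc hx w.arg
  have hw' : Complex.exp (w.arg * Complex.I) = w := by
    have := Complex.norm_mul_exp_arg_mul_I w
    rw [hw] at this
    simpa using this
  rwa [hw'] at h

end Pool.Agent.Results.MP_7bc51d_an.ContinuousInvariants
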